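import Mathlib.Combinatorics.SimpleGraph.Connectivity.Connected
import Mathlib.Combinatorics.SimpleGraph.Finite
import Mathlib.Data.Set.Card
import Mathlib.Tactic

/-!
# Two connected (6,3)-regular graphs, all of them finite (MP_74392e_co)
-/

namespace Pool.Agent.Results.MP_74392e_co.PairSixThree

/-- `G` is `(k,t)`-regular: every vertex has finite degree `k`, and every edge lies in exactly `t`
triangles. -/
def IsKT {V : Type*} (G : SimpleGraph V) (k t : ℕ) : Prop :=
  (∀ v, (G.neighborSet v).Finite) ∧ (∀ v, (G.neighborSet v).ncard = k) ∧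
    ∀ u v, G.Adj u v → (G.commonNeighbors u v).ncard = t

section

set_option linter.unusedSectionVars false

variable {V : Type*} [DecidableEq V] {G : SimpleGraph V} [DecidableRel G.Adj]

/-- Indicator of adjacency. -/
def ad (G : SimpleGraph V) [DecidableRel G.Adj] (x y : V) : ℕ := if G.Adj x y then 1 else 0

theorem ad_comm (x y : V) : ad G x y = ad G y x := by
  unfold ad
  simp only [G.adj_comm x y]

theorem ad_one {x y : V} : ad G x y = 1 ↔ G.Adj x y := by
  unfold ad
  split_ifs with h <;> simp [h]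

theorem ad_zero {x y : V} : ad G x y = 0 ↔ ¬ G.Adj x y := by
  unfold ad
  split_ifs with h <;> simp [h]

theorem ad_self (x : V) : ad G x x = 0 := ad_zero.2 (G.loopless.irrefl x)

theorem ad_le (x y : V) : ad G x y ≤ 1 := by
  unfold ad
  split_ifs <;> omega

/-- `l` lists the neighbours of `x`. -/
def Nb (G : SimpleGraph V) (x : V) (l : List V) : Prop := l.Nodup ∧ ∀ y, G.Adj x y ↔ y ∈ l

theorem Nb.perm {x : V} {l l' : List V} (h : Nb G x l) (hp : l.Perm l') : Nb G x l' :=
  ⟨hp.nodup_iff.1 h.1, fun y => (h.2 y).trans hp.mem_iff⟩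

theorem Nb.sum (hG : IsKT G 6 3) {x : V} {l : List V} (hl : Nb G x l) {y : V} (hy : y ∈ l) :
    (l.map (ad G y)).sum = 3 := by
  have h1 := hG.2.2 x y ((hl.2 y).2 hy)
  have h2 : G.commonNeighbors x y = (((l.toFinset).filter (fun z => G.Adj y z) : Finset V) :
      Set V) := by
    ext z
    simp only [SimpleGraph.mem_commonNeighbors, Finset.coe_filter, List.mem_toFinset,
      Set.mem_ofPred_eq, hl.2 z]
  rw [h2, Set.ncard_coe_finset, Finset.card_filter, List.sum_toFinset _ hl.1] at h1
  exact h1

theorem exists_nb (hG : IsKT G 6 3) (x : V) (l : List V) (hl : l.Nodup)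
    (hadj : ∀ y ∈ l, G.Adj x y) : ∃ l', Nb G x (l ++ l') ∧ l.length + l'.length = 6 := by
  classical
  let s := (hG.1 x).toFinset
  have hs : s.card = 6 := by
    rw [← hG.2.1 x, Set.ncard_eq_toFinset_card _ (hG.1 x)]
  have hmem : ∀ y, y ∈ s ↔ G.Adj x y := by
    intro y
    simp [s]
  have hsub : l.toFinset ⊆ s := by
    intro y hy
    exact (hmem y).2 (hadj y (List.mem_toFinset.1 hy))
  refine ⟨(s \ l.toFinset).toList, ⟨?_, ?_⟩, ?_⟩
  · rw [List.nodup_append]
    refine ⟨hl, Finset.nodup_toList _, ?_⟩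
    rintro a ha b hb rfl
    rw [Finset.mem_toList, Finset.mem_sdiff] at hb
    exact hb.2 (List.mem_toFinset.2 ha)
  · intro y
    rw [List.mem_append, Finset.mem_toList, Finset.mem_sdiff, hmem, List.mem_toFinset]
    constructor
    · intro h
      by_cases hy : y ∈ l
      · exact Or.inl hy
      · exact Or.inr ⟨h, hy⟩
    · rintro (h | h)
      · exact hadj y h
      · exact h.1
  · rw [Finset.length_toList, Finset.card_sdiff_of_subset hsub, List.toFinset_card_of_nodup hl,
      hs]
    have := Finset.card_le_card hsub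
    rw [List.toFinset_card_of_nodup hl, hs] at this
    omega

/-- Six distinct neighbours are all the neighbours. -/
theorem nb_of_six (hG : IsKT G 6 3) {x : V} {l : List V} (hl : l.Nodup) (hlen : l.length = 6)
    (hadj : ∀ y ∈ l, G.Adj x y) : Nb G x l := by
  obtain ⟨l', h1, h2⟩ := exists_nb hG x l hl hadj
  have : l' = [] := List.length_eq_zero_iff.1 (by omega)
  rw [this, List.append_nil] at h1
  exact h1

/-- If a finite set is closed under adjacency and `G` is connected, then `V` is finite. -/
theorem finite_of_closed (hc : G.Connected) {l : List V} {u : V} (hu : u ∈ l)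
    (hcl : ∀ x ∈ l, ∀ y, G.Adj x y → y ∈ l) : Finite V := by
  have h : ∀ y, y ∈ l := by
    intro y
    obtain ⟨w⟩ := hc.preconnected u y
    induction w with
    | nil => exact hu
    | cons h _ ih => exact ih (hcl _ hu _ h)
  exact Finite.of_finite_univ (Set.Finite.subset l.toFinset.finite_toSet
    (fun y _ => List.mem_toFinset.2 (h y)))

theorem ad_cases (x y : V) : ad G x y = 0 ∨ ad G x y = 1 := by
  have := ad_le (G := G) x y
  omega

/-- The degree equations in the neighbourhood of a vertex. -/
theorem local6 (hG : IsKT G 6 3) {x a b c d e f : V} (h : Nb G x [a, b, c, d, e, f]) :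
    ad G a b + ad G a c + ad G a d + ad G a e + ad G a f = 3 ∧
    ad G a b + ad G b c + ad G b d + ad G b e + ad G b f = 3 ∧
    ad G a c + ad G b c + ad G c d + ad G c e + ad G c f = 3 ∧
    ad G a d + ad G b d + ad G c d + ad G d e + ad G d f = 3 ∧
    ad G a e + ad G b e + ad G c e + ad G d e + ad G e f = 3 ∧
    ad G a f + ad G b f + ad G c f + ad G d f + ad G e f = 3 := by
  have ha := h.sum hG (y := a) (by simp)
  have hb := h.sum hG (y := b) (by simp)
  have hc := h.sum hG (y := c) (by simp)
  have hd := h.sum hG (y := d) (by simp)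
  have he := h.sum hG (y := e) (by simp)
  have hf := h.sum hG (y := f) (by simp)
  simp only [List.map_cons, List.map_nil, List.sum_cons, List.sum_nil, ad_self] at ha hb hc hd he hf
  rw [ad_comm b a] at hb
  rw [ad_comm c a, ad_comm c b] at hc
  rw [ad_comm d a, ad_comm d b, ad_comm d c] at hd
  rw [ad_comm e a, ad_comm e b, ad_comm e c, ad_comm e d] at he
  rw [ad_comm f a, ad_comm f b, ad_comm f c, ad_comm f d, ad_comm f e] at hf
  omega

/-- The case of local graphs `K_{3,3}`. -/
theorem caseA (hG : IsKT G 6 3) (hc : G.Connected) {u x1 x2 x3 y1 y2 y3 : V}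
    (hu : Nb G u [x1, x2, x3, y1, y2, y3])
    (e12 : ad G x1 x2 = 0) (e13 : ad G x1 x3 = 0) (e23 : ad G x2 x3 = 0)
    (f12 : ad G y1 y2 = 0) (f13 : ad G y1 y3 = 0) (f23 : ad G y2 y3 = 0)
    (g11 : ad G x1 y1 = 1) (g12 : ad G x1 y2 = 1) (g13 : ad G x1 y3 = 1)
    (g21 : ad G x2 y1 = 1) (g22 : ad G x2 y2 = 1) (g23 : ad G x2 y3 = 1)
    (g31 : ad G x3 y1 = 1) (g32 : ad G x3 y2 = 1) (g33 : ad G x3 y3 = 1) : Finite V := by
  have nbmem := hu.2
  simp only [List.mem_cons, List.not_mem_nil, or_false] at nbmem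
  have ux1 : ad G u x1 = 1 := ad_one.2 ((nbmem _).2 (by simp))
  have ux2 : ad G u x2 = 1 := ad_one.2 ((nbmem _).2 (by simp))
  have ux3 : ad G u x3 = 1 := ad_one.2 ((nbmem _).2 (by simp))
  have uy1 : ad G u y1 = 1 := ad_one.2 ((nbmem _).2 (by simp))
  have uy2 : ad G u y2 = 1 := ad_one.2 ((nbmem _).2 (by simp))
  have uy3 : ad G u y3 = 1 := ad_one.2 ((nbmem _).2 (by simp))
  have hself := ad_self (G := G)
  have hcomm := ad_comm (G := G)
  have hn := hu.1
  simp only [List.nodup_cons, List.mem_cons, List.not_mem_nil, or_false, not_or,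
    not_false_eq_true, List.nodup_nil, and_true] at hn
  -- neighbours of `x1`
  obtain ⟨l', h1, h2⟩ := exists_nb hG x1 [u, y1, y2, y3] (by
      simp only [List.nodup_cons, List.mem_cons, List.not_mem_nil, or_false, not_or,
        not_false_eq_true, List.nodup_nil, and_true]
      grind) (by
      simp only [List.mem_cons, List.not_mem_nil, or_false, forall_eq_or_imp, forall_eq]
      simp only [← ad_one]
      grind)
  obtain ⟨a, b, rfl⟩ : ∃ a b, l' = [a, b] := by
    rw [← List.length_eq_two]
    simp at h2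
    omega
  have hx1 : Nb G x1 [u, y1, y2, y3, a, b] := h1
  have hnx1 := hx1.1
  simp only [List.nodup_cons, List.mem_cons, List.not_mem_nil, or_false, not_or,
    not_false_eq_true, List.nodup_nil, and_true] at hnx1
  have x1a : ad G x1 a = 1 := ad_one.2 ((hx1.2 _).2 (by simp))
  have x1b : ad G x1 b = 1 := ad_one.2 ((hx1.2 _).2 (by simp))
  have L1 := local6 hG hx1
  have c1 := ad_le (G := G) y1 a
  have c2 := ad_le (G := G) y1 b
  have c3 := ad_le (G := G) y2 a
  have c4 := ad_le (G := G) y2 b
  have c5 := ad_le (G := G) y3 a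
  have c6 := ad_le (G := G) y3 b
  have y1a : ad G y1 a = 1 := by omega
  have y1b : ad G y1 b = 1 := by omega
  have y2a : ad G y2 a = 1 := by omega
  have y2b : ad G y2 b = 1 := by omega
  have y3a : ad G y3 a = 1 := by omega
  have y3b : ad G y3 b = 1 := by omega
  have ua : ad G u a = 0 := by omega
  have ub : ad G u b = 0 := by omega
  have ab : ad G a b = 0 := by omega
  clear L1
  have hy : ∀ y, ad G x1 y = 1 → ad G x2 y = 1 → ad G x3 y = 1 → ad G u y = 1 → ad G y a = 1 →
      ad G y b = 1 → Nb G y [u, x1, x2, x3, a, b] := by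
    intro y h1 h2 h3 h4 h5 h6
    apply nb_of_six hG _ rfl
    · simp only [List.mem_cons, List.not_mem_nil, or_false, forall_eq_or_imp, forall_eq]
      simp only [← ad_one]
      grind
    · simp only [List.nodup_cons, List.mem_cons, List.not_mem_nil, or_false, not_or,
        not_false_eq_true, List.nodup_nil, and_true]
      grind
  have hy1 := hy y1 g11 g21 g31 uy1 y1a y1b
  have hy2 := hy y2 g12 g22 g32 uy2 y2a y2b
  have hy3 := hy y3 g13 g23 g33 uy3 y3a y3b
  have L2 := local6 hG hy1
  have d1 := ad_le (G := G) x2 a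
  have d2 := ad_le (G := G) x2 b
  have d3 := ad_le (G := G) x3 a
  have d4 := ad_le (G := G) x3 b
  have x2a : ad G x2 a = 1 := by omega
  have x2b : ad G x2 b = 1 := by omega
  have x3a : ad G x3 a = 1 := by omega
  have x3b : ad G x3 b = 1 := by omega
  clear L2
  have hx : ∀ x, ad G x y1 = 1 → ad G x y2 = 1 → ad G x y3 = 1 → ad G u x = 1 → ad G x a = 1 →
      ad G x b = 1 → Nb G x [u, y1, y2, y3, a, b] := by
    intro x h1 h2 h3 h4 h5 h6
    apply nb_of_six hG _ rfl
    · simp only [List.mem_cons, List.not_mem_nil, or_false, forall_eq_or_imp, forall_eq]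
      simp only [← ad_one]
      grind
    · simp only [List.nodup_cons, List.mem_cons, List.not_mem_nil, or_false, not_or,
        not_false_eq_true, List.nodup_nil, and_true]
      grind
  have hx2 := hx x2 g21 g22 g23 ux2 x2a x2b
  have hx3 := hx x3 g31 g32 g33 ux3 x3a x3b
  have hz : ∀ z, ad G x1 z = 1 → ad G x2 z = 1 → ad G x3 z = 1 → ad G y1 z = 1 → ad G y2 z = 1 →
      ad G y3 z = 1 → Nb G z [x1, x2, x3, y1, y2, y3] := by
    intro z h1 h2 h3 h4 h5 h6
    apply nb_of_six hG _ rfl
    · simp only [List.mem_cons, List.not_mem_nil, or_false, forall_eq_or_imp, forall_eq]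
      simp only [← ad_one]
      grind
    · simp only [List.nodup_cons, List.mem_cons, List.not_mem_nil, or_false, not_or,
        not_false_eq_true, List.nodup_nil, and_true]
      grind
  have ha := hz a x1a x2a x3a y1a y2a y3a
  have hb := hz b x1b x2b x3b y1b y2b y3b
  refine finite_of_closed hc (l := [u, x1, x2, x3, y1, y2, y3, a, b]) (u := u) (by simp) ?_
  have mono : ∀ (x : V) (l : List V), Nb G x l → (∀ z ∈ l, z ∈ [u, x1, x2, x3, y1, y2, y3, a, b]) →
      ∀ y, G.Adj x y → y ∈ [u, x1, x2, x3, y1, y2, y3, a, b] :=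
    fun x l h1 h2 y hy => h2 y ((h1.2 y).1 hy)
  simp only [List.mem_cons, List.not_mem_nil, or_false, forall_eq_or_imp, forall_eq] at mono ⊢
  exact ⟨mono _ _ hu (by simp; try tauto), mono _ _ hx1 (by simp; try tauto),
    mono _ _ hx2 (by simp; try tauto), mono _ _ hx3 (by simp; try tauto),
    mono _ _ hy1 (by simp; try tauto), mono _ _ hy2 (by simp; try tauto),
    mono _ _ hy3 (by simp; try tauto), mono _ _ ha (by simp; try tauto),
    mono _ _ hb (by simp; try tauto)⟩

/-- The case of local graphs isomorphic to the prism, with the neighbours of `p1` named. -/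
theorem caseB' (hG : IsKT G 6 3) (hc : G.Connected) {u p1 p2 p3 q1 q2 q3 a b : V}
    (hu : Nb G u [p1, p2, p3, q1, q2, q3])
    (e12 : ad G p1 p2 = 1) (e13 : ad G p1 p3 = 1) (e23 : ad G p2 p3 = 1)
    (f12 : ad G q1 q2 = 1) (f13 : ad G q1 q3 = 1) (f23 : ad G q2 q3 = 1)
    (g11 : ad G p1 q1 = 1) (g12 : ad G p1 q2 = 0) (g13 : ad G p1 q3 = 0)
    (g21 : ad G p2 q1 = 0) (g22 : ad G p2 q2 = 1) (g23 : ad G p2 q3 = 0)
    (g31 : ad G p3 q1 = 0) (g32 : ad G p3 q2 = 0) (g33 : ad G p3 q3 = 1)
    (hp1 : Nb G p1 [u, p2, p3, q1, a, b]) (p2a : ad G p2 a = 1) : Finite V := by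
  have nbmem := hu.2
  simp only [List.mem_cons, List.not_mem_nil, or_false] at nbmem
  have up1 : ad G u p1 = 1 := ad_one.2 ((nbmem _).2 (by simp))
  have up2 : ad G u p2 = 1 := ad_one.2 ((nbmem _).2 (by simp))
  have up3 : ad G u p3 = 1 := ad_one.2 ((nbmem _).2 (by simp))
  have uq1 : ad G u q1 = 1 := ad_one.2 ((nbmem _).2 (by simp))
  have uq2 : ad G u q2 = 1 := ad_one.2 ((nbmem _).2 (by simp))
  have uq3 : ad G u q3 = 1 := ad_one.2 ((nbmem _).2 (by simp))
  have hself := ad_self (G := G)
  have hcomm := ad_comm (G := G)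
  have hn := hu.1
  simp only [List.nodup_cons, List.mem_cons, List.not_mem_nil, or_false, not_or,
    not_false_eq_true, List.nodup_nil, and_true] at hn
  have hnp1 := hp1.1
  simp only [List.nodup_cons, List.mem_cons, List.not_mem_nil, or_false, not_or,
    not_false_eq_true, List.nodup_nil, and_true] at hnp1
  have p1a : ad G p1 a = 1 := ad_one.2 ((hp1.2 _).2 (by simp))
  have p1b : ad G p1 b = 1 := ad_one.2 ((hp1.2 _).2 (by simp))
  have L1 := local6 hG hp1
  have c1 := ad_le (G := G) p2 b
  have c2 := ad_le (G := G) p3 a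
  have c3 := ad_le (G := G) p3 b
  have c4 := ad_le (G := G) q1 a
  have c5 := ad_le (G := G) q1 b
  have c6 := ad_le (G := G) a b
  have ua : ad G u a = 0 := by omega
  have ub : ad G u b = 0 := by omega
  have p2b : ad G p2 b = 0 := by omega
  have q1a : ad G q1 a = 1 := by omega
  have q1b : ad G q1 b = 1 := by omega
  have ab : ad G a b = 1 := by omega
  have p3b : ad G p3 b = 1 := by omega
  have p3a : ad G p3 a = 0 := by omega
  clear L1
  -- neighbours of `p2`
  obtain ⟨l', h1, h2⟩ := exists_nb hG p2 [u, p1, p3, q2, a] (by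
      simp only [List.nodup_cons, List.mem_cons, List.not_mem_nil, or_false, not_or,
        not_false_eq_true, List.nodup_nil, and_true]
      grind) (by
      simp only [List.mem_cons, List.not_mem_nil, or_false, forall_eq_or_imp, forall_eq]
      simp only [← ad_one]
      grind)
  obtain ⟨c, rfl⟩ : ∃ c, l' = [c] := by
    rw [← List.length_eq_one_iff]
    simp at h2
    omega
  have hp2 : Nb G p2 [u, p1, p3, q2, a, c] := h1
  have hnp2 := hp2.1
  simp only [List.nodup_cons, List.mem_cons, List.not_mem_nil, or_false, not_or,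
    not_false_eq_true, List.nodup_nil, and_true] at hnp2
  have p2c : ad G p2 c = 1 := ad_one.2 ((hp2.2 _).2 (by simp))
  have L2 := local6 hG hp2
  rw [hcomm p3 q2] at L2
  have d1 := ad_le (G := G) u c
  have d2 := ad_le (G := G) p1 c
  have d3 := ad_le (G := G) p3 c
  have d4 := ad_le (G := G) q2 c
  have d5 := ad_le (G := G) q2 a
  have d6 := ad_le (G := G) a c
  have g32' : ad G q2 p3 = 0 := by rw [hcomm]; exact g32
  have uc : ad G u c = 0 := by omega
  have p1c : ad G p1 c = 0 := by omega
  have p3c : ad G p3 c = 1 := by omega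
  have q2a : ad G q2 a = 1 := by omega
  have q2c : ad G q2 c = 1 := by omega
  have ac : ad G a c = 1 := by omega
  clear L2
  have hbc : b ≠ c := by
    rintro rfl
    omega
  have hp3 : Nb G p3 [u, p1, p2, q3, b, c] := by
    apply nb_of_six hG _ rfl
    · simp only [List.mem_cons, List.not_mem_nil, or_false, forall_eq_or_imp, forall_eq]
      simp only [← ad_one]
      grind
    · simp only [List.nodup_cons, List.mem_cons, List.not_mem_nil, or_false, not_or,
        not_false_eq_true, List.nodup_nil, and_true]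
      grind
  have L3 := local6 hG hp3
  have k1 := ad_le (G := G) q3 b
  have k2 := ad_le (G := G) q3 c
  have k3 := ad_le (G := G) b c
  have q3b : ad G q3 b = 1 := by omega
  have q3c : ad G q3 c = 1 := by omega
  have bc : ad G b c = 1 := by omega
  clear L3
  have hq1 : Nb G q1 [u, q2, q3, p1, a, b] := by
    apply nb_of_six hG _ rfl
    · simp only [List.mem_cons, List.not_mem_nil, or_false, forall_eq_or_imp, forall_eq]
      simp only [← ad_one]
      grind
    · simp only [List.nodup_cons, List.mem_cons, List.not_mem_nil, or_false, not_or,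
        not_false_eq_true, List.nodup_nil, and_true]
      grind
  have hq2 : Nb G q2 [u, q1, q3, p2, a, c] := by
    apply nb_of_six hG _ rfl
    · simp only [List.mem_cons, List.not_mem_nil, or_false, forall_eq_or_imp, forall_eq]
      simp only [← ad_one]
      grind
    · simp only [List.nodup_cons, List.mem_cons, List.not_mem_nil, or_false, not_or,
        not_false_eq_true, List.nodup_nil, and_true]
      grind
  have hq3 : Nb G q3 [u, q1, q2, p3, b, c] := by
    apply nb_of_six hG _ rfl
    · simp only [List.mem_cons, List.not_mem_nil, or_false, forall_eq_or_imp, forall_eq]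
      simp only [← ad_one]
      grind
    · simp only [List.nodup_cons, List.mem_cons, List.not_mem_nil, or_false, not_or,
        not_false_eq_true, List.nodup_nil, and_true]
      grind
  have ha : Nb G a [p1, p2, b, q1, q2, c] := by
    apply nb_of_six hG _ rfl
    · simp only [List.mem_cons, List.not_mem_nil, or_false, forall_eq_or_imp, forall_eq]
      simp only [← ad_one]
      grind
    · simp only [List.nodup_cons, List.mem_cons, List.not_mem_nil, or_false, not_or,
        not_false_eq_true, List.nodup_nil, and_true]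
      grind
  have hb : Nb G b [p1, p3, a, q1, q3, c] := by
    apply nb_of_six hG _ rfl
    · simp only [List.mem_cons, List.not_mem_nil, or_false, forall_eq_or_imp, forall_eq]
      simp only [← ad_one]
      grind
    · simp only [List.nodup_cons, List.mem_cons, List.not_mem_nil, or_false, not_or,
        not_false_eq_true, List.nodup_nil, and_true]
      grind
  have hcc : Nb G c [p2, p3, q2, q3, a, b] := by
    apply nb_of_six hG _ rfl
    · simp only [List.mem_cons, List.not_mem_nil, or_false, forall_eq_or_imp, forall_eq]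
      simp only [← ad_one]
      grind
    · simp only [List.nodup_cons, List.mem_cons, List.not_mem_nil, or_false, not_or,
        not_false_eq_true, List.nodup_nil, and_true]
      grind
  refine finite_of_closed hc (l := [u, p1, p2, p3, q1, q2, q3, a, b, c]) (u := u) (by simp) ?_
  have mono : ∀ (x : V) (l : List V), Nb G x l →
      (∀ z ∈ l, z ∈ [u, p1, p2, p3, q1, q2, q3, a, b, c]) →
      ∀ y, G.Adj x y → y ∈ [u, p1, p2, p3, q1, q2, q3, a, b, c] :=
    fun x l h1 h2 y hy => h2 y ((h1.2 y).1 hy)
  simp only [List.mem_cons, List.not_mem_nil, or_false, forall_eq_or_imp, forall_eq] at mono ⊢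
  exact ⟨mono _ _ hu (by simp; try tauto), mono _ _ hp1 (by simp; try tauto),
    mono _ _ hp2 (by simp; try tauto), mono _ _ hp3 (by simp; try tauto),
    mono _ _ hq1 (by simp; try tauto), mono _ _ hq2 (by simp; try tauto),
    mono _ _ hq3 (by simp; try tauto), mono _ _ ha (by simp; try tauto),
    mono _ _ hb (by simp; try tauto), mono _ _ hcc (by simp; try tauto)⟩

/-- The case of local graphs isomorphic to the prism. -/
theorem caseB (hG : IsKT G 6 3) (hc : G.Connected) {u p1 p2 p3 q1 q2 q3 : V}
    (hu : Nb G u [p1, p2, p3, q1, q2, q3])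
    (e12 : ad G p1 p2 = 1) (e13 : ad G p1 p3 = 1) (e23 : ad G p2 p3 = 1)
    (f12 : ad G q1 q2 = 1) (f13 : ad G q1 q3 = 1) (f23 : ad G q2 q3 = 1)
    (g11 : ad G p1 q1 = 1) (g12 : ad G p1 q2 = 0) (g13 : ad G p1 q3 = 0)
    (g21 : ad G p2 q1 = 0) (g22 : ad G p2 q2 = 1) (g23 : ad G p2 q3 = 0)
    (g31 : ad G p3 q1 = 0) (g32 : ad G p3 q2 = 0) (g33 : ad G p3 q3 = 1) : Finite V := by
  have nbmem := hu.2
  simp only [List.mem_cons, List.not_mem_nil, or_false] at nbmem
  have up1 : ad G u p1 = 1 := ad_one.2 ((nbmem _).2 (by simp))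
  have up2 : ad G u p2 = 1 := ad_one.2 ((nbmem _).2 (by simp))
  have up3 : ad G u p3 = 1 := ad_one.2 ((nbmem _).2 (by simp))
  have uq1 : ad G u q1 = 1 := ad_one.2 ((nbmem _).2 (by simp))
  have hself := ad_self (G := G)
  have hcomm := ad_comm (G := G)
  have hn := hu.1
  simp only [List.nodup_cons, List.mem_cons, List.not_mem_nil, or_false, not_or,
    not_false_eq_true, List.nodup_nil, and_true] at hn
  obtain ⟨l', h1, h2⟩ := exists_nb hG p1 [u, p2, p3, q1] (by
      simp only [List.nodup_cons, List.mem_cons, List.not_mem_nil, or_false, not_or,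
        not_false_eq_true, List.nodup_nil, and_true]
      grind) (by
      simp only [List.mem_cons, List.not_mem_nil, or_false, forall_eq_or_imp, forall_eq]
      simp only [← ad_one]
      grind)
  obtain ⟨a, b, rfl⟩ : ∃ a b, l' = [a, b] := by
    rw [← List.length_eq_two]
    simp at h2
    omega
  have hp1 : Nb G p1 [u, p2, p3, q1, a, b] := h1
  have hp1' : Nb G p1 [u, p2, p3, q1, b, a] := by
    refine ⟨?_, fun y => ?_⟩
    · have := hp1.1
      simp only [List.nodup_cons, List.mem_cons, List.not_mem_nil, or_false, not_or,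
        not_false_eq_true, List.nodup_nil, and_true] at this ⊢
      grind
    · rw [hp1.2]
      simp only [List.mem_cons, List.not_mem_nil, or_false]
      tauto
  have L1 := local6 hG hp1
  have c1 := ad_le (G := G) p2 a
  have c2 := ad_le (G := G) p2 b
  rcases ad_cases (G := G) p2 a with h | h
  · exact caseB' hG hc hu e12 e13 e23 f12 f13 f23 g11 g12 g13 g21 g22 g23 g31 g32 g33 hp1'
      (by omega)
  · exact caseB' hG hc hu e12 e13 e23 f12 f13 f23 g11 g12 g13 g21 g22 g23 g31 g32 g33 hp1 h

/-- Every connected `(6,3)`-regular graph is finite. -/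
theorem finite_of_connected (hG : IsKT G 6 3) (hc : G.Connected) : Finite V := by
  obtain ⟨u⟩ := hc.nonempty
  obtain ⟨l, hl, hlen⟩ := exists_nb hG u [] List.nodup_nil (by simp)
  rw [List.nil_append] at hl
  obtain ⟨v, t, rfl⟩ : ∃ v t, l = v :: t := by
    rcases l with _ | ⟨v, t⟩
    · simp at hlen
    · exact ⟨v, t, rfl⟩
  have huv : G.Adj u v := (hl.2 v).2 (by simp)
  obtain ⟨a, b, c, hab, hac, hbc, hset⟩ := Set.ncard_eq_three.1 (hG.2.2 u v huv)
  have hmem : ∀ z, (G.Adj u z ∧ G.Adj v z) ↔ (z = a ∨ z = b ∨ z = c) := by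
    intro z
    rw [← SimpleGraph.mem_commonNeighbors, hset]
    simp
  have ha := (hmem a).2 (by simp)
  have hb := (hmem b).2 (by simp)
  have hcc := (hmem c).2 (by simp)
  obtain ⟨l', h1, h2⟩ := exists_nb hG u [v, a, b, c] (by
      simp only [List.nodup_cons, List.mem_cons, List.not_mem_nil, or_false, not_or,
        not_false_eq_true, List.nodup_nil, and_true]
      exact ⟨⟨ha.2.ne, hb.2.ne, hcc.2.ne⟩, ⟨hab, hac⟩, hbc⟩) (by
      simp only [List.mem_cons, List.not_mem_nil, or_false, forall_eq_or_imp, forall_eq]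
      exact ⟨huv, ha.1, hb.1, hcc.1⟩)
  obtain ⟨d, e, rfl⟩ : ∃ a b, l' = [a, b] := by
    rw [← List.length_eq_two]
    simp at h2
    omega
  have hu : Nb G u [v, a, b, c, d, e] := h1
  have hn := hu.1
  simp only [List.nodup_cons, List.mem_cons, List.not_mem_nil, or_false, not_or,
    not_false_eq_true, List.nodup_nil, and_true] at hn
  have va : ad G v a = 1 := ad_one.2 ha.2
  have vb : ad G v b = 1 := ad_one.2 hb.2
  have vc : ad G v c = 1 := ad_one.2 hcc.2
  have vd : ad G v d = 0 := by
    rw [ad_zero]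
    intro h
    have := (hmem d).1 ⟨(hu.2 d).2 (by simp), h⟩
    grind
  have ve : ad G v e = 0 := by
    rw [ad_zero]
    intro h
    have := (hmem e).1 ⟨(hu.2 e).2 (by simp), h⟩
    grind
  obtain ⟨-, La, Lb, Lc, Ld, Le⟩ := local6 hG hu
  have b1 := ad_le (G := G) a b
  have b2 := ad_le (G := G) a c
  have b3 := ad_le (G := G) b c
  have b4 := ad_le (G := G) a d
  have b5 := ad_le (G := G) a e
  have b6 := ad_le (G := G) b d
  have b7 := ad_le (G := G) b e
  have b8 := ad_le (G := G) c d
  have b9 := ad_le (G := G) c e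
  have hcomm := ad_comm (G := G)
  rcases ad_cases (G := G) d e with hde | hde
  · rw [vd, hde] at Ld
    rw [ve, hde] at Le
    have k1 : ad G a d = 1 := by omega
    have k2 : ad G b d = 1 := by omega
    have k3 : ad G c d = 1 := by omega
    have k4 : ad G a e = 1 := by omega
    have k5 : ad G b e = 1 := by omega
    have k6 : ad G c e = 1 := by omega
    rw [va, k1, k4] at La
    rw [vb, k2, k5] at Lb
    have k7 : ad G a b = 0 := by omega
    have k8 : ad G a c = 0 := by omega
    have k9 : ad G b c = 0 := by omega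
    exact caseA hG hc (x1 := v) (x2 := d) (x3 := e) (y1 := a) (y2 := b) (y3 := c)
      (hu.perm ((List.perm_append_comm (l₁ := [a, b, c]) (l₂ := [d, e])).cons v)) vd ve hde k7 k8 k9 va vb vc (by rw [hcomm]; exact k1) (by rw [hcomm]; exact k2)
        (by rw [hcomm]; exact k3) (by rw [hcomm]; exact k4) (by rw [hcomm]; exact k5)
        (by rw [hcomm]; exact k6)
  · -- prism: the matched neighbour `x` of `v`, and the other two `y`, `z`
    have main : ∀ x y z, Nb G u [v, x, y, z, d, e] →
        ad G v x = 1 → ad G v y = 1 → ad G v z = 1 → ad G y z = 1 → ad G x y = 0 →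
        ad G x z = 0 → ad G x d = 1 → ad G x e = 1 → ad G y d = 1 → ad G y e = 0 →
        ad G z d = 0 → ad G z e = 1 → Finite V := by
      intro x y z hnb h1 h2 h3 h4 h5 h6 h7 h8 h9 h10 h11 h12
      exact caseB hG hc (p1 := v) (p2 := y) (p3 := z) (q1 := x) (q2 := d) (q3 := e)
        (hnb.perm (((List.perm_append_comm (l₁ := [x]) (l₂ := [y, z])).append_right
          [d, e]).cons v)) h2 h3 h4 h7 h8 hde h1 vd ve (by rw [hcomm]; exact h5) h9 h10
          (by rw [hcomm]; exact h6) h11 h12
    have main' : ∀ x y z, Nb G u [v, x, y, z, d, e] →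
        ad G v x = 1 → ad G v y = 1 → ad G v z = 1 → ad G y z = 1 → ad G x y = 0 →
        ad G x z = 0 → ad G x d = 1 → ad G x e = 1 →
        (ad G y d = 1 ∧ ad G y e = 0 ∧ ad G z d = 0 ∧ ad G z e = 1) ∨
        (ad G y d = 0 ∧ ad G y e = 1 ∧ ad G z d = 1 ∧ ad G z e = 0) → Finite V := by
      intro x y z hnb h1 h2 h3 h4 h5 h6 h7 h8 h9
      rcases h9 with ⟨h9, h10, h11, h12⟩ | ⟨h9, h10, h11, h12⟩
      · exact main x y z hnb h1 h2 h3 h4 h5 h6 h7 h8 h9 h10 h11 h12
      · exact main x z y (hnb.perm (((List.Perm.swap z y [d, e]).cons x).cons v)) h1 h3 h2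
          (by rw [hcomm]; exact h4) h6 h5 h7 h8 h11 h12 h9 h10
    have hsum : ad G a b + ad G a c + ad G b c = 1 := by omega
    have c1 := ad_cases (G := G) a b
    have c2 := ad_cases (G := G) a c
    have c3 := ad_cases (G := G) b c
    have hcase : (ad G b c = 1 ∧ ad G a b = 0 ∧ ad G a c = 0) ∨
        (ad G a c = 1 ∧ ad G a b = 0 ∧ ad G b c = 0) ∨
        (ad G a b = 1 ∧ ad G a c = 0 ∧ ad G b c = 0) := by
      clear La Lb Lc Ld Le b4 b5 b6 b7 b8 b9
      omega
    -- the remaining adjacencies
    have hrest : ∀ s t : ℕ, s ≤ 1 → t ≤ 1 → s + t = 1 → (s = 0 ∧ t = 1) ∨ (s = 1 ∧ t = 0) := by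
      intro s t _ _ _
      omega
    rcases hcase with ⟨h1, h2, h3⟩ | ⟨h1, h2, h3⟩ | ⟨h1, h2, h3⟩
    · rw [va, h2, h3] at La
      rw [vb, h2, h1] at Lb
      rw [vc, h3, h1] at Lc
      rw [vd, hde] at Ld
      have k1 : ad G a d = 1 := by omega
      have k2 : ad G a e = 1 := by omega
      rw [k1] at Ld
      refine main' a b c hu va vb vc h1 h2 h3 k1 k2 ?_
      rcases hrest (ad G b d) (ad G b e) b6 b7 (by omega) with ⟨m1, m2⟩ | ⟨m1, m2⟩
      · right
        exact ⟨m1, m2, by omega, by omega⟩
      · left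
        exact ⟨m1, m2, by omega, by omega⟩
    · rw [va, h2, h1] at La
      rw [vb, h2, h3] at Lb
      rw [vc, h1, h3] at Lc
      rw [vd, hde] at Ld
      have k1 : ad G b d = 1 := by omega
      have k2 : ad G b e = 1 := by omega
      rw [k1] at Ld
      refine main' b a c (hu.perm ((List.Perm.swap b a [c, d, e]).cons v)) vb va vc h1
        (by rw [hcomm]; exact h2) h3 k1 k2 ?_
      · rcases hrest (ad G a d) (ad G a e) b4 b5 (by omega) with ⟨m1, m2⟩ | ⟨m1, m2⟩
        · right
          exact ⟨m1, m2, by omega, by omega⟩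
        · left
          exact ⟨m1, m2, by omega, by omega⟩
    · rw [va, h1, h2] at La
      rw [vb, h1, h3] at Lb
      rw [vc, h2, h3] at Lc
      rw [vd, hde] at Ld
      have k1 : ad G c d = 1 := by omega
      have k2 : ad G c e = 1 := by omega
      rw [k1] at Ld
      refine main' c a b (hu.perm (((List.perm_append_comm (l₁ := [a, b]) (l₂ := [c])).append_right
        [d, e]).cons v)) vc va vb h1 (by rw [hcomm]; exact h2) (by rw [hcomm]; exact h3)
        k1 k2 ?_
      · rcases hrest (ad G a d) (ad G a e) b4 b5 (by omega) with ⟨m1, m2⟩ | ⟨m1, m2⟩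
        · right
          exact ⟨m1, m2, by omega, by omega⟩
        · left
          exact ⟨m1, m2, by omega, by omega⟩

end

/-- The complete tripartite graph `K_{3,3,3}`. -/
def G1 : SimpleGraph (Fin 9) where
  Adj i j := i.val % 3 ≠ j.val % 3
  symm := ⟨fun _ _ h => h.symm⟩
  loopless := ⟨fun _ h => h rfl⟩

/-- The triangular graph `T(5)` (the line graph of `K_5`), by adjacency rows. -/
def G2 : SimpleGraph (Fin 10) where
  Adj i j := ([126, 413, 683, 839, 483, 725, 825, 822, 730, 492].getD i.val 0).testBit j.val = true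
  symm := ⟨by decide⟩
  loopless := ⟨by decide⟩

instance : DecidableRel G1.Adj := fun i j => inferInstanceAs (Decidable (i.val % 3 ≠ j.val % 3))

instance : DecidableRel G2.Adj := fun i j => inferInstanceAs (Decidable
  (([126, 413, 683, 839, 483, 725, 825, 822, 730, 492].getD i.val 0).testBit j.val = true))

theorem isKT_of_fin {n : ℕ} (G : SimpleGraph (Fin n)) [DecidableRel G.Adj] (k t : ℕ)
    (h1 : ∀ v, (Finset.univ.filter (fun w => G.Adj v w)).card = k)
    (h2 : ∀ u v, G.Adj u v → (Finset.univ.filter (fun w => G.Adj u w ∧ G.Adj v w)).card = t) :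
    IsKT G k t := by
  refine ⟨fun v => Set.toFinite _, fun v => ?_, fun u v huv => ?_⟩
  · rw [← h1 v, ← Set.ncard_coe_finset]
    congr 1
    ext w
    simp
  · rw [← h2 u v huv, ← Set.ncard_coe_finset]
    congr 1
    ext w
    simp [SimpleGraph.mem_commonNeighbors]

theorem connected_of_fin {n : ℕ} (G : SimpleGraph (Fin (n + 1)))
    (h : ∀ v, v = 0 ∨ G.Adj 0 v ∨ ∃ w, G.Adj 0 w ∧ G.Adj w v) : G.Connected := by
  have hr : ∀ v, G.Reachable 0 v := by
    intro v
    rcases h v with rfl | h | ⟨w, h1, h2⟩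
    · exact SimpleGraph.Reachable.refl _
    · exact h.reachable
    · exact h1.reachable.trans h2.reachable
  exact ⟨fun u v => (hr u).symm.trans (hr v)⟩

/-- There is a pair `(k,t)` (namely `(6,3)`) with two non-isomorphic connected `(k,t)`-regular
graphs such that every connected `(k,t)`-regular graph is finite. -/
theorem result : ∃ k t : ℕ,
    (∃ (V W : Type) (G : SimpleGraph V) (H : SimpleGraph W), G.Connected ∧ H.Connected ∧
      IsKT G k t ∧ IsKT H k t ∧ IsEmpty (G ≃g H)) ∧
    ∀ (V : Type) (G : SimpleGraph V), G.Connected → IsKT G k t → Finite V := by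
  refine ⟨6, 3, ⟨Fin 9, Fin 10, G1, G2, ?_, ?_, ?_, ?_, ⟨fun e => ?_⟩⟩, ?_⟩
  · exact connected_of_fin G1 (by decide)
  · exact connected_of_fin G2 (by decide)
  · exact isKT_of_fin G1 6 3 (by decide) (by decide)
  · exact isKT_of_fin G2 6 3 (by decide) (by decide)
  · have := Fintype.card_congr e.toEquiv
    simp at this
  · intro V G hc hG
    classical
    exact finite_of_connected hG hc

end Pool.Agent.Results.MP_74392e_co.PairSixThree
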